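import Mathlib
import Pool.Agent.W593.IR.Stm2

/-!
Project IR (helper593), IR2-CLG: hypergraph bound from the i.i.d. interface. Adapted from
the file of helper314.
-/

set_option autoImplicit false

namespace Pool.Agent.W883.IR

open Finset Filter Topology Pool.Agent.W890.SF Pool.Agent.W593.IR

lemma choose_ge (k n : ℕ) (hn : k ≤ n) (hn1 : 1 ≤ n) (δ : ℝ) (h : (k : ℝ) ^ 2 ≤ δ * n) :
    (1 - δ) * (n : ℝ) ^ k ≤ (k.factorial : ℝ) * (n.choose k : ℝ) := by
  have hn0 : (0 : ℝ) < n := by exact_mod_cast hn1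
  have hkn : (k : ℝ) ≤ n := by exact_mod_cast hn
  have h1 : (((n + 1 - k : ℕ) : ℝ)) ^ k ≤ (k.factorial : ℝ) * (n.choose k : ℝ) := by
    have h0 := Nat.pow_le_choose (α := ℝ) k n
    rw [div_le_iff₀ (by exact_mod_cast k.factorial_pos)] at h0
    linarith
  refine le_trans ?_ h1
  have h2 : ((n + 1 - k : ℕ) : ℝ) = n * (1 + (-(((k : ℝ) - 1) / n))) := by
    rw [Nat.cast_sub (by omega)]
    push_cast
    field_simp
    ring
  rw [h2, mul_pow, mul_comm ((1 : ℝ) - δ)]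
  apply mul_le_mul_of_nonneg_left _ (by positivity)
  have h3 : -2 ≤ -(((k : ℝ) - 1) / n) := by
    have : ((k : ℝ) - 1) / n ≤ 2 := by
      rw [div_le_iff₀ hn0]
      linarith
    linarith
  have h4 := one_add_mul_le_pow h3 k
  refine le_trans ?_ h4
  have h5 : (k : ℝ) * (((k : ℝ) - 1) / n) ≤ δ := by
    rw [← mul_div_assoc, div_le_iff₀ hn0]
    have : (0 : ℝ) ≤ k := by positivity
    nlinarith
  linarith

theorem clg (hd : S_DI1) (hm : S_MINC) (hf : S_FAC) : S_CLG := by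
  classical
  intro k hk x hx hkx hIB ε hε
  obtain ⟨η0, hη0, hIB⟩ := hIB (ε / 4) (by linarith)
  have hk2 : (2 : ℝ) ≤ k := by exact_mod_cast hk
  have hKpos : (0 : ℝ) < k := by linarith
  set P : ℝ := mv k x with hP
  have hPpos : 0 ≤ P := by
    rw [hP]
    unfold mv
    exact le_trans (by positivity : (0 : ℝ) ≤ (k * x) ^ k) (le_max_right _ _)
  set D : ℝ := min ((1 / k - x) / 2) η0 with hD
  have hxK : x < 1 / k := by
    rw [lt_div_iff₀ hKpos]
    linarith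
  have hDpos : 0 < D := by
    rw [hD]
    apply lt_min
    · linarith
    · exact hη0
  have hD1 : D ≤ (1 / k - x) / 2 := min_le_left _ _
  have hD2 : D ≤ η0 := min_le_right _ _
  -- the points
  set x0 : ℝ := x + D / 4 with hx0
  set x1 : ℝ := x + D / 2 with hx1
  set x3 : ℝ := x + 3 * D / 4 with hx3
  set x2 : ℝ := x + D with hx2
  have hKx2 : k * x2 < 1 := by
    have h1 : x2 < 1 / k := by rw [hx2]; linarith
    rw [lt_div_iff₀ hKpos] at h1
    linarith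
  have hx0pos : 0 < x0 := by rw [hx0]; linarith
  have hx1pos : 0 < x1 := by rw [hx1]; linarith
  have hx3pos : 0 < x3 := by rw [hx3]; linarith
  have hx13 : x1 < x3 := by rw [hx1, hx3]; linarith
  have hx32 : x3 < x2 := by rw [hx2, hx3]; linarith
  set τ : ℝ := 1 - x1 / x3 with hτ
  have hτpos : 0 < τ := by
    rw [hτ, sub_pos, div_lt_one hx3pos]
    exact hx13
  have h1τ : 1 - τ = x1 / x3 := by rw [hτ]; ring
  have h1τpos : 0 < 1 - τ := by rw [h1τ]; positivity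
  set ε1 : ℝ := x1 / x0 - 1 with hε1
  have hε1pos : 0 < ε1 := by
    rw [hε1, sub_pos, one_lt_div hx0pos]
    rw [hx1, hx0]; linarith
  have h1ε1 : 1 + ε1 = x1 / x0 := by rw [hε1]; ring
  have hfac : (0 : ℝ) < k.factorial := by exact_mod_cast k.factorial_pos
  set c : ℝ := ε / (4 * k.factorial) with hc
  have hcpos : 0 < c := by rw [hc]; positivity
  obtain ⟨n1, hn1⟩ := hd k hk (x / 2) c τ ε1 (by positivity) hcpos hτpos hε1pos
  have hPε : 0 < P + ε := by linarith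
  set δ : ℝ := min (1 / 2) (ε / 2 / (P + ε)) with hδ
  have hδpos : 0 < δ := by
    rw [hδ]
    apply lt_min
    · norm_num
    · positivity
  have hδ2 : δ * (P + ε) ≤ ε / 2 := by
    have h := min_le_right (1 / 2 : ℝ) (ε / 2 / (P + ε))
    rw [← hδ, le_div_iff₀ hPε] at h
    exact h
  refine ⟨D / 4, by linarith,
    n1 + k + ⌈(k : ℝ) ^ 2 / δ⌉₊ + ⌈4 / x⌉₊ + ⌈1 / (k * (x2 - x3))⌉₊ + 1, ?_⟩
  intro n hn F hF hFc
  by_contra hcon
  rw [← hx0] at hcon
  have hn0 : 1 ≤ n := by omega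
  have hn0' : (0 : ℝ) < n := by exact_mod_cast hn0
  have hnδ : (k : ℝ) ^ 2 ≤ δ * n := by
    have h3 : (k : ℝ) ^ 2 / δ ≤ n := by
      refine (Nat.le_ceil _).trans ?_
      exact_mod_cast (by omega : ⌈(k : ℝ) ^ 2 / δ⌉₊ ≤ n)
    rw [div_le_iff₀ hδpos] at h3
    linarith
  have hnx : 4 ≤ x * n := by
    have h3 : 4 / x ≤ n := by
      refine (Nat.le_ceil _).trans ?_
      exact_mod_cast (by omega : ⌈4 / x⌉₊ ≤ n)
    rw [div_le_iff₀ hx] at h3
    linarith
  have hnK : 1 ≤ k * (x2 - x3) * n := by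
    have hpos : 0 < k * (x2 - x3) := mul_pos hKpos (by linarith)
    have h3 : 1 / (k * (x2 - x3)) ≤ n := by
      refine (Nat.le_ceil _).trans ?_
      exact_mod_cast (by omega : ⌈1 / (k * (x2 - x3))⌉₊ ≤ n)
    rw [div_le_iff₀ hpos] at h3
    linarith
  -- the size of the matching
  have hx0x : x * n ≤ x0 * n := mul_le_mul_of_nonneg_right (by rw [hx0]; linarith) hn0'.le
  have hs1' : (⌊x0 * (n : ℝ)⌋₊ : ℝ) ≤ x0 * n := Nat.floor_le (by positivity)
  have hs2' : x0 * n < (⌊x0 * (n : ℝ)⌋₊ : ℝ) + 1 := Nat.lt_floor_add_one _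
  obtain ⟨s, hs⟩ : ∃ s : ℕ, ⌊x0 * (n : ℝ)⌋₊ = s + 1 := by
    have h3 : (1 : ℝ) < (⌊x0 * (n : ℝ)⌋₊ : ℝ) := by linarith
    have h4 : 1 < ⌊x0 * (n : ℝ)⌋₊ := by exact_mod_cast h3
    exact ⟨⌊x0 * (n : ℝ)⌋₊ - 1, by omega⟩
  rw [hs] at hcon hs1' hs2'
  push_cast at hs1' hs2'
  have hs1 : (s : ℝ) ≤ x0 * n := by linarith
  have ha1 : x / 2 * n ≤ (s : ℝ) := by linarith
  have ha2 : (1 + ε1) * (s : ℝ) ≤ x1 * n := by
    rw [h1ε1]
    calc x1 / x0 * (s : ℝ) ≤ x1 / x0 * (x0 * n) :=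
          mul_le_mul_of_nonneg_left hs1 (by positivity)
      _ = x1 * n := by field_simp
  have hx2pos : 0 < x2 := hx3pos.trans hx32
  have hx1le : x1 ≤ 1 := by
    have h3 : x2 ≤ k * x2 := le_mul_of_one_le_left hx2pos.le (by linarith)
    linarith
  have ha3 : (1 + ε1) * (s : ℝ) ≤ n := by
    refine ha2.trans ?_
    calc x1 * (n : ℝ) ≤ 1 * n := mul_le_mul_of_nonneg_right hx1le hn0'.le
      _ = n := one_mul _
  obtain ⟨y, hy0, hys, hyc⟩ := hn1 n (by omega) F hF _ ha1 ha3 hcon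
  set F' := F.filter (fun e => ¬ ∑ v ∈ e, y v ≤ 1 - τ) with hF'
  have hUF' : Unif k F' := fun e he => hF e (Finset.mem_filter.1 he).1
  have hz0 : ∀ v, 0 ≤ y v / (1 - τ) := fun v => div_nonneg (hy0 v) h1τpos.le
  have hzc : ∀ e ∈ F', 1 ≤ ∑ v ∈ e, y v / (1 - τ) := by
    intro e he
    rw [← Finset.sum_div, le_div_iff₀ h1τpos, one_mul]
    exact (not_le.1 (Finset.mem_filter.1 he).2).le
  have hzs : ∑ v, y v / (1 - τ) ≤ x3 * n := by
    rw [← Finset.sum_div, div_le_iff₀ h1τpos, h1τ]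
    have h3 : x3 * n * (x1 / x3) = x1 * n := by field_simp
    rw [h3]
    exact hys.trans ha2
  obtain ⟨y', hy'0, hy'c, hy's, hy'n⟩ := hm (Fin n) k F' (fun v => y v / (1 - τ)) (by omega)
    hUF' hz0 hzc
  have hFF := hf (Fin n) k F' y' hUF' hy'c
  set s' : ℕ := ⌈k * x3 * n⌉₊ with hs'
  have hs'1 : k * x3 * n ≤ (s' : ℝ) := Nat.le_ceil _
  have hs'2 : (s' : ℝ) < k * x3 * n + 1 := Nat.ceil_lt_add_one (by positivity)
  have hs'3 : (s' : ℝ) ≤ k * x2 * n := by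
    have h3 : k * (x2 - x3) * n = k * x2 * n - k * x3 * n := by ring
    linarith
  have hs'4 : (s' : ℝ) ≤ n := by
    have h3 : k * x2 * n ≤ 1 * n := mul_le_mul_of_nonneg_right hKx2.le hn0'.le
    linarith
  have hs'5 : 0 < s' := by
    have : (0 : ℝ) < s' := lt_of_lt_of_le (by positivity) hs'1
    exact_mod_cast this
  have hsup : (univ.filter (fun v => y' v ≠ 0)).card ≤ s' := by
    have h3 : ((univ.filter (fun v => y' v ≠ 0)).card : ℝ) ≤ (s' : ℝ) := by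
      refine hy'n.trans ?_
      calc k * ∑ v, y' v ≤ k * (x3 * n) :=
            mul_le_mul_of_nonneg_left (hy's.trans hzs) hKpos.le
        _ = k * x3 * n := by ring
        _ ≤ s' := hs'1
    exact_mod_cast h3
  have hBD := hIB (Fin n) y' s' hy'0 hs'5 (by
    rw [Fintype.card_fin]; exact_mod_cast hs'4) hsup (by
    calc k * ∑ v, y' v ≤ k * (x3 * n) := mul_le_mul_of_nonneg_left (hy's.trans hzs) hKpos.le
      _ = k * x3 * n := by ring
      _ ≤ s' := hs'1) (by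
    rw [Fintype.card_fin]
    refine hs'3.trans (mul_le_mul_of_nonneg_right ?_ hn0'.le)
    exact mul_le_mul_of_nonneg_left (by rw [hx2]; linarith) hKpos.le)
  rw [Fintype.card_fin] at hBD
  have hnpow : (0 : ℝ) < (n : ℝ) ^ k := by positivity
  have h5 : ((F'.card : ℕ) : ℝ) * ((k.factorial : ℕ) : ℝ) ≤ (n : ℝ) ^ k * (P + ε / 4) := by
    have h6 : ((F'.card : ℕ) : ℝ) * ((k.factorial : ℕ) : ℝ) ≤ (NG y' k : ℝ) := by
      exact_mod_cast hFF
    exact h6.trans hBD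
  have h7 : (F.card : ℝ) = ((F.filter (fun e => ∑ v ∈ e, y v ≤ 1 - τ)).card : ℝ) + (F'.card : ℝ) := by
    have := Finset.card_filter_add_card_filter_not (s := F) (fun e => ∑ v ∈ e, y v ≤ 1 - τ)
    rw [hF']
    exact_mod_cast this.symm
  have hch := choose_ge k n (by omega) hn0 δ hnδ
  have h8 : (F.card : ℝ) * (k.factorial : ℝ) < (n : ℝ) ^ k * (P + ε / 2) := by
    rw [h7, add_mul]
    have h9 : ((F.filter (fun e => ∑ v ∈ e, y v ≤ 1 - τ)).card : ℝ) * (k.factorial : ℝ) <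
        (n : ℝ) ^ k * (ε / 4) := by
      calc ((F.filter (fun e => ∑ v ∈ e, y v ≤ 1 - τ)).card : ℝ) * (k.factorial : ℝ)
          < (c * (n : ℝ) ^ k) * (k.factorial : ℝ) :=
            mul_lt_mul_of_pos_right hyc hfac
        _ = (n : ℝ) ^ k * (ε / 4) := by
            rw [hc]
            field_simp
    linarith
  have h9 : (n : ℝ) ^ k * (P + ε / 2) ≤ (P + ε) * ((k.factorial : ℝ) * (n.choose k : ℝ)) := by
    have h3 : P + ε / 2 ≤ (P + ε) * (1 - δ) := by
      have h4 : (P + ε) * (1 - δ) = (P + ε) - δ * (P + ε) := by ring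
      linarith
    calc (n : ℝ) ^ k * (P + ε / 2) ≤ (n : ℝ) ^ k * ((P + ε) * (1 - δ)) :=
          mul_le_mul_of_nonneg_left h3 hnpow.le
      _ = (P + ε) * ((1 - δ) * (n : ℝ) ^ k) := by ring
      _ ≤ _ := mul_le_mul_of_nonneg_left hch hPε.le
  have h10 : (F.card : ℝ) * (k.factorial : ℝ) <
      ((P + ε) * (n.choose k : ℝ)) * (k.factorial : ℝ) := by
    calc (F.card : ℝ) * (k.factorial : ℝ) < (n : ℝ) ^ k * (P + ε / 2) := h8
      _ ≤ _ := h9
      _ = _ := by ring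
  have h11 := lt_of_mul_lt_mul_right h10 hfac.le
  linarith

end Pool.Agent.W883.IR
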